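import Pool.Agent.helper56.P2.SpecU

/-!
# p2:USNG: singular values (Sard)
-/

set_option autoImplicit false

namespace Pool.Agent.P2U

open MeasureTheory Set Filter Topology Metric Complex
open scoped ENNReal ContDiff

theorem USNG_loc (h : ℂ × ℂ → ℂ) (U Z : Set (ℂ × ℂ)) (hU : IsOpen U)
    (han : ∀ p ∈ U, AnalyticAt ℂ h p) (hZU : Z ⊆ U) (hZ : ∀ p ∈ Z, fderiv ℂ h p = 0)
    (p : ℂ × ℂ) (hp : p ∈ Z) :
    ∃ (K : NNReal) (ε : ℝ), 0 < ε ∧ HolderOnWith K 2 h (Z ∩ ball p ε) := by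
  obtain ⟨K, t, ht, hK⟩ :=
    ((han p (hZU hp)).fderiv.contDiffAt (n := 1)).exists_lipschitzOnWith
  obtain ⟨ε, hε, hball⟩ := Metric.mem_nhds_iff.1 (inter_mem ht (hU.mem_nhds (hZU hp)))
  refine ⟨K, ε, hε, ?_⟩
  rintro x ⟨hxZ, hxb⟩ y ⟨hyZ, hyb⟩
  have hseg : segment ℝ y x ⊆ ball p ε := (convex_ball p ε).segment_subset hyb hxb
  have h1 : ∀ q ∈ segment ℝ y x, HasFDerivWithinAt h (fderiv ℂ h q) (segment ℝ y x) q := by
    intro q hq
    exact (han q (hball (hseg hq)).2).differentiableAt.hasFDerivAt.hasFDerivWithinAt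
  have h2 : ∀ q ∈ segment ℝ y x, ‖fderiv ℂ h q‖ ≤ K * ‖x - y‖ := by
    intro q hq
    have h3 := hK.norm_sub_le (hball (hseg hq)).1 (hball hyb).1
    rw [hZ y hyZ, sub_zero] at h3
    refine h3.trans (mul_le_mul_of_nonneg_left ?_ K.2)
    obtain ⟨c, d, hc, hd, hcd, rfl⟩ := hq
    have h4 : c • y + d • x - y = d • (x - y) := by
      have hc' : c = 1 - d := by linarith
      rw [hc', sub_smul, one_smul, smul_sub]
      abel
    rw [h4, norm_smul, Real.norm_of_nonneg hd]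
    have : d ≤ 1 := by linarith
    nlinarith [norm_nonneg (x - y)]
  have h5 := (convex_segment y x).norm_image_sub_le_of_norm_hasFDerivWithin_le h1 h2
    (left_mem_segment ℝ y x) (right_mem_segment ℝ y x)
  rw [edist_dist, edist_dist, dist_eq_norm, dist_eq_norm, ENNReal.ofReal_rpow_of_nonneg
    (norm_nonneg _) (by positivity), ← ENNReal.ofReal_coe_nnreal,
    ← ENNReal.ofReal_mul K.coe_nonneg]
  refine ENNReal.ofReal_le_ofReal ?_
  have h6 : ‖x - y‖ ^ ((2 : NNReal) : ℝ) = ‖x - y‖ * ‖x - y‖ := by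
    rw [NNReal.coe_ofNat, Real.rpow_two, pow_two]
  rw [h6]
  linarith

theorem USNG_H2 (h : ℂ × ℂ → ℂ) (U Z : Set (ℂ × ℂ)) (hU : IsOpen U)
    (han : ∀ p ∈ U, AnalyticAt ℂ h p) (hZU : Z ⊆ U) (hZ : ∀ p ∈ Z, fderiv ℂ h p = 0)
    (hnull : volume Z = 0) : volume (h '' Z) = 0 := by
  have hf4 : Module.finrank ℝ (ℂ × ℂ) = 4 := by
    rw [Module.finrank_prod, Complex.finrank_real_complex]
  haveI : (volume : Measure (ℂ × ℂ)).IsAddHaarMeasure := by
    rw [Measure.volume_eq_prod]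
    infer_instance
  have hac4 : (μH[(Module.finrank ℝ (ℂ × ℂ) : ℕ)] : Measure (ℂ × ℂ)) ≪ volume :=
    Measure.absolutelyContinuous_isAddHaarMeasure _ _
  have hac2 : (volume : Measure ℂ) ≪ μH[(Module.finrank ℝ ℂ : ℕ)] :=
    Measure.absolutelyContinuous_isAddHaarMeasure _ _
  have h4 : (μH[(4 : ℝ)] : Measure (ℂ × ℂ)) Z = 0 := by
    have := hac4 hnull
    rw [hf4] at this
    exact_mod_cast this
  refine hac2 ?_
  rw [Complex.finrank_real_complex]
  have key : (OuterMeasure.comap h (μH[((2 : ℕ) : ℝ)] : Measure ℂ).toOuterMeasure) Z = 0 := by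
    refine measure_null_of_locally_null Z fun p hp => ?_
    obtain ⟨K, ε, hε, hH⟩ := USNG_loc h U Z hU han hZU hZ p hp
    refine ⟨Z ∩ ball p ε, inter_mem_nhdsWithin Z (ball_mem_nhds p hε), ?_⟩
    rw [OuterMeasure.comap_apply]
    have h5 := hH.hausdorffMeasure_image_le (d := 2) (by norm_num) (by norm_num)
    have h6 : ((2 : NNReal) : ℝ) * 2 = 4 := by
      rw [NNReal.coe_ofNat]
      norm_num
    rw [h6, measure_mono_null inter_subset_left h4, mul_zero] at h5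
    have h7 : (((2 : ℕ) : ℝ)) = (2 : ℝ) := by norm_num
    rw [h7]
    exact nonpos_iff_eq_zero.1 h5
  rw [OuterMeasure.comap_apply] at key
  exact key

theorem USNG_der (P Q : ℂ × ℂ → ℂ) (p : ℂ × ℂ) (hP : AnalyticAt ℂ P p) (hQ : AnalyticAt ℂ Q p)
    (hne : Q p ≠ 0) (hx : cx P Q p = 0) (hv : cv P Q p = 0) :
    fderiv ℂ (fun q => P q / Q q) p = 0 := by
  have hh : AnalyticAt ℂ (fun q => P q / Q q) p := hP.div hQ hne
  have h1 : P =ᶠ[𝓝 p] fun q => (P q / Q q) * Q q := by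
    have h2 : ∀ᶠ q in 𝓝 p, Q q ≠ 0 := hQ.continuousAt.eventually_ne hne
    filter_upwards [h2] with q hq
    rw [div_mul_cancel₀ _ hq]
  have h3 : fderiv ℂ P p = (P p / Q p) • fderiv ℂ Q p +
      Q p • fderiv ℂ (fun q => P q / Q q) p := by
    rw [h1.fderiv_eq]
    exact fderiv_fun_mul hh.differentiableAt hQ.differentiableAt
  have h4 : ∀ w : ℂ × ℂ, Q p * fderiv ℂ P p w - P p * fderiv ℂ Q p w =
      Q p ^ 2 * fderiv ℂ (fun q => P q / Q q) p w := by
    intro w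
    rw [h3]
    simp only [add_apply, smul_apply, smul_eq_mul]
    field_simp
    ring
  have h5 : fderiv ℂ (fun q => P q / Q q) p (1, 0) = 0 := by
    have := h4 (1, 0)
    unfold cx dx at hx
    rw [hx] at this
    exact (mul_eq_zero.1 this.symm).resolve_left (pow_ne_zero 2 hne)
  have h6 : fderiv ℂ (fun q => P q / Q q) p (0, 1) = 0 := by
    have := h4 (0, 1)
    unfold cv dv at hv
    rw [hv] at this
    exact (mul_eq_zero.1 this.symm).resolve_left (pow_ne_zero 2 hne)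
  ext
  · simpa using h5
  · simpa using h6

theorem USNG : USNG_stmt := by
  intro P Q a r hH hnull
  have hTB : IsOpen (TB a r) := by
    have h1 : IsOpen {p : ℂ × ℂ | ‖p.1‖ < a} := isOpen_lt (by fun_prop) continuous_const
    have h2 : IsOpen {p : ℂ × ℂ | ‖p.2‖ < r} := isOpen_lt (by fun_prop) continuous_const
    exact h1.inter h2
  have hU : IsOpen (TB a r ∩ Q ⁻¹' {0}ᶜ) :=
    hH.hQ.continuousOn.isOpen_inter_preimage hTB isOpen_compl_singleton
  have hmain := USNG_H2 (fun q => P q / Q q) (TB a r ∩ Q ⁻¹' {0}ᶜ)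
    {p | (p ∈ TB a r ∧ cx P Q p = 0 ∧ cv P Q p = 0) ∧ Q p ≠ 0} hU
    (fun p hp => (hH.hP p hp.1).div (hH.hQ p hp.1) hp.2)
    (fun p hp => ⟨hp.1.1, hp.2⟩)
    (fun p hp => USNG_der P Q p (hH.hP p hp.1.1) (hH.hQ p hp.1.1) hp.2 hp.1.2.1 hp.1.2.2)
    (measure_mono_null (fun p hp => hp.1) hnull)
  refine measure_mono_null ?_ hmain
  rintro ζ ⟨p, hp, hζ, h1, h2⟩
  have hQ : Q p ≠ 0 := by
    intro h0
    rw [h0, mul_zero] at hζ
    rcases hH.ne p hp with h | h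
    · exact h hζ
    · exact h h0
  exact ⟨p, ⟨⟨hp, h1, h2⟩, hQ⟩, by
    show P p / Q p = ζ
    rw [hζ, mul_div_assoc, div_self hQ, mul_one]⟩

end Pool.Agent.P2U
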